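import Pool.Agent.Helper15.UH.Goals

/-!
# Packet SYL: four commuting elements in the inertia group
-/

namespace Helper64UH

open UnrCoh

variable {L K : Type} [Field L] [Field K] [Algebra L K]

/-- the inertia group of a valuation ring `W` of `K` -/
def iner (W : ValuationSubring K) : Subgroup (K ≃ₐ[L] K) where
  carrier := {σ | (∀ z : K, σ z ∈ W ↔ z ∈ W) ∧ ∀ z ∈ W, W.valuation (σ z - z) < 1}
  one_mem' := by
    refine ⟨fun z => Iff.rfl, fun z _ => ?_⟩
    have : (1 : K ≃ₐ[L] K) z - z = 0 := by simp
    rw [this, map_zero]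
    exact zero_lt_one
  mul_mem' := by
    rintro s t ⟨hs1, hs2⟩ ⟨ht1, ht2⟩
    refine ⟨fun z => ?_, fun z hz => ?_⟩
    · change s (t z) ∈ W ↔ z ∈ W
      rw [hs1, ht1]
    · change W.valuation (s (t z) - z) < 1
      have h : s (t z) - z = (s (t z) - t z) + (t z - z) := by ring
      rw [h]
      exact Valuation.map_add_lt _ (hs2 _ ((ht1 z).2 hz)) (ht2 z hz)
  inv_mem' := by
    rintro s ⟨hs1, hs2⟩
    have hinv : ∀ z : K, s (s⁻¹ z) = z := fun z => by
      change (s * s⁻¹) z = z
      rw [mul_inv_cancel]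
      rfl
    refine ⟨fun z => ?_, fun z hz => ?_⟩
    · rw [← hs1 (s⁻¹ z), hinv]
    · have hz' : s⁻¹ z ∈ W := by
        rw [← hs1 (s⁻¹ z), hinv]
        exact hz
      have h := hs2 _ hz'
      rw [hinv] at h
      rw [← Valuation.map_neg]
      simpa using h

theorem le_iff_of_iner {W : ValuationSubring K} {s : K ≃ₐ[L] K}
    (hs : ∀ z : K, s z ∈ W ↔ z ∈ W) (x y : K) :
    W.valuation (s x) ≤ W.valuation (s y) ↔ W.valuation x ≤ W.valuation y := by
  have key : ∀ a b : K, b ≠ 0 → (W.valuation a ≤ W.valuation b ↔ a / b ∈ W) := by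
    intro a b hb
    have hb' : 0 < W.valuation b := by
      rw [zero_lt_iff]
      exact (Valuation.ne_zero_iff _).2 hb
    rw [← ValuationSubring.valuation_le_one_iff, map_div₀, div_le_one₀ hb']
  by_cases hy : y = 0
  · subst hy
    simp only [map_zero, le_zero_iff, map_eq_zero]
  · have hsy : s y ≠ 0 := by
      intro h
      exact hy ((map_eq_zero s).1 h)
    rw [key _ _ hsy, key _ _ hy, ← map_div₀, hs]

theorem lt_iff_of_iner {W : ValuationSubring K} {s : K ≃ₐ[L] K}
    (hs : ∀ z : K, s z ∈ W ↔ z ∈ W) (x y : K) :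
    W.valuation (s x) < W.valuation (s y) ↔ W.valuation x < W.valuation y := by
  rw [← not_le, ← not_le, le_iff_of_iner hs]

theorem val_eq [FiniteDimensional L K] {W : ValuationSubring K} {s : K ≃ₐ[L] K}
    (hs : ∀ z : K, s z ∈ W ↔ z ∈ W) (z : K) : W.valuation (s z) = W.valuation z := by
  have hord : 0 < orderOf s := orderOf_pos s
  have hpow : ∀ (n : ℕ) (x y : K), W.valuation x < W.valuation y →
      W.valuation ((s ^ n) x) < W.valuation ((s ^ n) y) := by
    intro n
    induction n with
    | zero => intro x y h; simpa using h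
    | succ n ih =>
      intro x y h
      rw [pow_succ']
      change W.valuation (s ((s ^ n) x)) < W.valuation (s ((s ^ n) y))
      rw [lt_iff_of_iner hs]
      exact ih x y h
  rcases lt_trichotomy (W.valuation (s z)) (W.valuation z) with h | h | h
  · exfalso
    have : ∀ n : ℕ, 0 < n → W.valuation ((s ^ n) z) < W.valuation z := by
      intro n hn
      induction n with
      | zero => exact absurd hn (lt_irrefl 0)
      | succ n ih =>
        have h1 := hpow n _ _ h
        have h2 : (s ^ (n + 1)) z = (s ^ n) (s z) := by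
          rw [pow_succ]
          rfl
        rw [h2]
        rcases Nat.eq_zero_or_pos n with h0 | h0
        · subst h0
          simpa using h
        · exact h1.trans (ih h0)
    have h3 := this _ hord
    rw [pow_orderOf_eq_one] at h3
    exact lt_irrefl _ h3
  · exact h
  · exfalso
    have : ∀ n : ℕ, 0 < n → W.valuation z < W.valuation ((s ^ n) z) := by
      intro n hn
      induction n with
      | zero => exact absurd hn (lt_irrefl 0)
      | succ n ih =>
        have h1 := hpow n _ _ h
        have h2 : (s ^ (n + 1)) z = (s ^ n) (s z) := by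
          rw [pow_succ]
          rfl
        rw [h2]
        rcases Nat.eq_zero_or_pos n with h0 | h0
        · subst h0
          simpa using h
        · exact (ih h0).trans h1
    have h3 := this _ hord
    rw [pow_orderOf_eq_one] at h3
    exact lt_irrefl _ h3

/-- tame kernel condition -/
def Wild (W : ValuationSubring K) (g : K ≃ₐ[L] K) : Prop :=
  ∀ z : K, z ≠ 0 → W.valuation (g z - z) < W.valuation z

theorem wild_comm [FiniteDimensional L K] {W : ValuationSubring K} {s t : K ≃ₐ[L] K}
    (hs : s ∈ iner W) (ht : t ∈ iner W) : Wild W (s * t * (t * s)⁻¹) := by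
  intro z hz
  set y : K := (t * s)⁻¹ z with hy
  have hts : (t * s) y = z := by
    rw [hy]
    change ((t * s) * (t * s)⁻¹) z = z
    rw [mul_inv_cancel]
    rfl
  have hy0 : y ≠ 0 := by
    rintro h
    rw [h, map_zero] at hts
    exact hz hts.symm
  have hvy : W.valuation y = W.valuation z := by
    rw [← hts]
    change _ = W.valuation (t (s y))
    rw [val_eq ht.1, val_eq hs.1]
  have hg : (s * t * (t * s)⁻¹) z = s (t y) := by
    change s (t ((t * s)⁻¹ z)) = _
    rw [← hy]
  have hz' : z = t (s y) := hts.symm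
  rw [hg, ← hvy]
  conv_lhs => rw [hz']
  -- ratios
  have hW : ∀ {r : K ≃ₐ[L] K}, r ∈ iner W → W.valuation (r y / y) = 1 := by
    intro r hr
    rw [map_div₀, val_eq hr.1, div_self ((Valuation.ne_zero_iff _).2 hy0)]
  set a : K := t y / y with ha
  set b : K := s y / y with hb
  have haW : a ∈ W := (ValuationSubring.valuation_le_one_iff _ _).1 (hW ht).le
  have hbW : b ∈ W := (ValuationSubring.valuation_le_one_iff _ _).1 (hW hs).le
  have hty : t y = a * y := by rw [ha, div_mul_cancel₀ _ hy0]
  have hsy : s y = b * y := by rw [hb, div_mul_cancel₀ _ hy0]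
  have e1 : s (t y) = s a * b * y := by
    rw [hty, map_mul, hsy]
    ring
  have e2 : t (s y) = t b * a * y := by
    rw [hsy, map_mul, hty]
    ring
  rw [e1, e2]
  have e3 : s a * b * y - t b * a * y = ((s a - a) * b - (t b - b) * a) * y := by ring
  rw [e3, map_mul]
  have hlt : W.valuation ((s a - a) * b - (t b - b) * a) < 1 := by
    refine Valuation.map_sub_lt _ ?_ ?_
    · rw [map_mul, hW hs, mul_one]
      exact hs.2 a haW
    · rw [map_mul, hW ht, mul_one]
      exact ht.2 b hbW
  have hvy0 : 0 < W.valuation y := by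
    rw [zero_lt_iff]
    exact (Valuation.ne_zero_iff _).2 hy0
  calc W.valuation ((s a - a) * b - (t b - b) * a) * W.valuation y
      < 1 * W.valuation y := by
        exact mul_lt_mul_of_pos_right hlt hvy0
    _ = W.valuation y := one_mul _

theorem wild_pow {W : ValuationSubring K} {g : K ≃ₐ[L] K} (hg : Wild W g)
    (n : ℕ) : Wild W (g ^ n) := by
  have hv : ∀ z : K, W.valuation (g z) = W.valuation z := by
    intro z
    by_cases hz : z = 0
    · subst hz
      simp
    · have h : g z = z + (g z - z) := by ring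
      rw [h]
      exact Valuation.map_add_eq_of_lt_left _ (hg z hz)
  intro z hz
  induction n with
  | zero =>
    have : (g ^ 0) z - z = 0 := by simp
    rw [this, map_zero, zero_lt_iff]
    exact (Valuation.ne_zero_iff _).2 hz
  | succ n ih =>
    have h1 : (g ^ (n + 1)) z - z = (g ((g ^ n) z - z)) + (g z - z) := by
      rw [pow_succ']
      change g ((g ^ n) z) - z = _
      rw [map_sub]
      ring
    rw [h1]
    refine Valuation.map_add_lt _ ?_ (hg z hz)
    rw [hv]
    exact ih

theorem wild_order_two {W : ValuationSubring K} (h2 : W.valuation 2 = 1) {g : K ≃ₐ[L] K}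
    (hg : Wild W g) (hgg : g * g = 1) : g = 1 := by
  by_contra hne
  have : ∃ x : K, g x ≠ x := by
    by_contra hcon
    push Not at hcon
    exact hne (AlgEquiv.ext hcon)
  obtain ⟨x, hx⟩ := this
  have hy0 : x - g x ≠ 0 := by
    intro h
    exact hx (sub_eq_zero.1 h).symm
  have hgy : g (x - g x) = -(x - g x) := by
    rw [map_sub]
    have : g (g x) = x := by
      change (g * g) x = x
      rw [hgg]
      rfl
    rw [this]
    ring
  have h := hg _ hy0
  rw [hgy] at h
  have h3 : -(x - g x) - (x - g x) = -(2 * (x - g x)) := by ring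
  rw [h3, Valuation.map_neg, map_mul, h2, one_mul] at h
  exact lt_irrefl _ h

open Classical in
/-- sign exponent -/
noncomputable def sx (σ : K ≃ₐ[L] K) (β : K) : ZMod 2 := if σ β = β then 0 else 1

/-- the sign of an element of `ZMod 2` -/
noncomputable def sg (K : Type) [Field K] (c : ZMod 2) : K := if c = 0 then 1 else -1

theorem zmod2_cases : ∀ c : ZMod 2, c = 0 ∨ c = 1 := by decide

theorem sg_zero : sg K 0 = 1 := if_pos rfl

theorem sg_one : sg K 1 = -1 := if_neg (by decide)

theorem sg_add (a b : ZMod 2) : sg K (a + b) = sg K a * sg K b := by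
  rcases zmod2_cases a with rfl | rfl <;> rcases zmod2_cases b with rfl | rfl
  · rw [add_zero, sg_zero, one_mul]
  · rw [zero_add, sg_zero, one_mul]
  · rw [add_zero, sg_zero, mul_one]
  · rw [show (1 + 1 : ZMod 2) = 0 by decide, sg_zero, sg_one]
    ring

theorem sg_pow (a e : ZMod 2) : sg K a ^ (e.val) = sg K (a * e) := by
  rcases zmod2_cases e with rfl | rfl
  · rw [mul_zero, sg_zero, ZMod.val_zero, pow_zero]
  · rw [mul_one, show (1 : ZMod 2).val = 1 by decide, pow_one]

theorem sg_sum {ι : Type} (s : Finset ι) (f : ι → ZMod 2) :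
    sg K (∑ i ∈ s, f i) = ∏ i ∈ s, sg K (f i) := by
  classical
  induction s using Finset.induction_on with
  | empty => simp [sg]
  | insert i s hi ih => rw [Finset.sum_insert hi, Finset.prod_insert hi, sg_add, ih]

theorem act_sq {σ : K ≃ₐ[L] K} {β : K} {b : L} (h : β ^ 2 = algebraMap L K b) :
    σ β = sg K (sx σ β) * β := by
  unfold sx
  by_cases h1 : σ β = β
  · rw [if_pos h1, h1]
    simp [sg]
  · rw [if_neg h1]
    have h2 : (σ β) ^ 2 = β ^ 2 := by
      rw [← map_pow, h, AlgEquiv.commutes]
    rcases sq_eq_sq_iff_eq_or_eq_neg.1 h2 with h3 | h3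
    · exact absurd h3 h1
    · rw [h3]
      simp [sg]

theorem sx_mul {σ τ : K ≃ₐ[L] K} {β : K} {b : L} (hb : b ≠ 0) (h20 : (2 : K) ≠ 0)
    (h : β ^ 2 = algebraMap L K b) : sx (σ * τ) β = sx σ β + sx τ β := by
  have hβ : β ≠ 0 := by
    rintro rfl
    rw [zero_pow two_ne_zero] at h
    exact hb ((map_eq_zero _).1 h.symm)
  have hst : (σ * τ) β = sg K (sx σ β + sx τ β) * β := by
    change σ (τ β) = _
    rw [act_sq h, map_mul, act_sq (σ := σ) h, sg_add]
    have : σ (sg K (sx τ β)) = sg K (sx τ β) := by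
      unfold sg
      split_ifs <;> simp
    rw [this]
    ring
  have h1 := act_sq (σ := σ * τ) h
  rw [hst] at h1
  have h2 := mul_right_cancel₀ hβ h1
  have hne : (1 : K) ≠ -1 := by
    intro h
    apply h20
    have : (1 : K) + 1 = 0 := by nth_rw 2 [h]; ring
    rw [← this]
    norm_num
  generalize sx (σ * τ) β = c at h2 ⊢
  generalize sx σ β + sx τ β = d at h2 ⊢
  rcases zmod2_cases c with rfl | rfl <;> rcases zmod2_cases d with rfl | rfl
  · rfl
  · rw [sg_zero, sg_one] at h2
    exact absurd h2.symm hne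
  · rw [sg_zero, sg_one] at h2
    exact absurd h2 hne
  · rfl

theorem syl : S_INER → S_SYL := by
  intro hI L K _ _ _ hfd hgal W hw2 hinf β b hb hβ hram
  classical
  have := hfd
  have := hgal
  have h20 : (2 : K) ≠ 0 := by
    intro h
    rw [h, map_zero] at hw2
    exact zero_ne_one hw2
  have hne : (1 : K) ≠ -1 := by
    intro h
    apply h20
    have : (1 : K) + 1 = 0 := by nth_rw 2 [h]; ring
    rw [← this]
    norm_num
  have hβ0 : ∀ i, β i ≠ 0 := by
    intro i h
    have h1 := hβ i
    rw [h, zero_pow two_ne_zero] at h1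
    exact hb i ((map_eq_zero _).1 h1.symm)
  have : Fact (Nat.Prime 2) := ⟨Nat.prime_two⟩
  have : Finite (iner (L := L) W) := inferInstance
  obtain ⟨S⟩ : Nonempty (Sylow 2 (iner (L := L) W)) := inferInstance
  have hodd : ¬ 2 ∣ (S : Subgroup (iner (L := L) W)).index := S.not_dvd_index
  -- the subspace of sign vectors
  let T : Submodule (ZMod 2) (Fin 4 → ZMod 2) :=
    { carrier := {v | ∃ s : iner (L := L) W, s ∈ (S : Subgroup (iner (L := L) W)) ∧
        ∀ i, sx (s : K ≃ₐ[L] K) (β i) = v i}
      zero_mem' := ⟨1, one_mem _, fun i => by simp [sx]⟩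
      add_mem' := by
        rintro u v ⟨s, hs, hsu⟩ ⟨t, ht, htv⟩
        refine ⟨s * t, mul_mem hs ht, fun i => ?_⟩
        rw [Subgroup.coe_mul, sx_mul (hb i) h20 (hβ i), hsu, htv]
        rfl
      smul_mem' := by
        rintro c v ⟨s, hs, hsv⟩
        rcases zmod2_cases c with rfl | rfl
        · refine ⟨1, one_mem _, fun i => ?_⟩
          simp [sx]
        · exact ⟨s, hs, fun i => by rw [hsv, one_smul]⟩ }
  have hT : T = ⊤ := by
    by_contra hcon
    obtain ⟨f, hf0, hf⟩ := Submodule.exists_le_ker_of_lt_top T (lt_top_iff_ne_top.2 hcon)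
    let e : Fin 4 → ZMod 2 := fun i => f (Pi.single i 1)
    have hfe : ∀ v, f v = ∑ i, v i * e i := by
      intro v
      conv_lhs => rw [← Finset.univ_sum_single v]
      rw [map_sum]
      refine Finset.sum_congr rfl fun i _ => ?_
      have : Pi.single i (v i) = (v i) • (Pi.single i (1 : ZMod 2) : Fin 4 → ZMod 2) := by
        ext j
        by_cases h : j = i
        · subst h
          simp
        · simp [h]
      rw [this, map_smul, smul_eq_mul]
    have he0 : e ≠ 0 := by
      intro h
      apply hf0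
      refine LinearMap.ext fun v => ?_
      rw [hfe]
      simp [h]
    let e' : Fin 4 → Fin 2 := e
    set y : K := ∏ i, β i ^ (e' i : ℕ) with hy
    have hy2 : y ^ 2 = algebraMap L K (∏ i, b i ^ (e' i : ℕ)) := by
      rw [hy, ← Finset.prod_pow, map_prod]
      refine Finset.prod_congr rfl fun i _ => ?_
      rw [map_pow, ← hβ, ← pow_mul, ← pow_mul, mul_comm]
    have hy0 : y ≠ 0 := by
      rw [hy]
      exact Finset.prod_ne_zero_iff.2 fun i _ => pow_ne_zero _ (hβ0 i)
    obtain ⟨σ, hσ1, hσ2, hσ3⟩ := hI L K hfd hgal W hw2 hinf y (∏ i, b i ^ (e' i : ℕ))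
      (Finset.prod_ne_zero_iff.2 fun i _ => pow_ne_zero _ (hb i)) hy2
      (fun x hx => hram e' he0 x hx)
    have hact : ∀ s : K ≃ₐ[L] K, s y = sg K (∑ i, sx s (β i) * e i) * y := by
      intro s
      rw [sg_sum, hy, map_prod, ← Finset.prod_mul_distrib]
      refine Finset.prod_congr rfl fun i _ => ?_
      rw [map_pow, act_sq (hβ i), mul_pow]
      congr 1
      exact sg_pow _ _
    have hyne : y ≠ -y := by
      intro h
      apply hne
      have : (1 : K) * y = (-1) * y := by rw [one_mul, neg_one_mul]; exact h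
      exact mul_right_cancel₀ hy0 this
    have hpm : ∀ s : K ≃ₐ[L] K, s y = y ∨ s y = -y := by
      intro s
      rw [hact s]
      unfold sg
      split_ifs
      · left; rw [one_mul]
      · right; rw [neg_one_mul]
    let H : Subgroup (iner (L := L) W) :=
      { carrier := {s | (s : K ≃ₐ[L] K) y = y}
        one_mem' := rfl
        mul_mem' := by
          intro s t hs ht
          change (s : K ≃ₐ[L] K) ((t : K ≃ₐ[L] K) y) = y
          rw [show (t : K ≃ₐ[L] K) y = y from ht]
          exact hs
        inv_mem' := by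
          intro s hs
          have hs' : (s : K ≃ₐ[L] K) y = y := hs
          change ((s : K ≃ₐ[L] K)⁻¹) y = y
          conv_lhs => rw [← hs']
          change ((s : K ≃ₐ[L] K)⁻¹ * (s : K ≃ₐ[L] K)) y = y
          rw [inv_mul_cancel]
          rfl }
    have hHidx : H.index = 2 := by
      rw [Subgroup.index_eq_two_iff]
      refine ⟨⟨σ, hσ1, hσ2⟩, fun c => ?_⟩
      have h1 : (c * (⟨σ, hσ1, hσ2⟩ : iner (L := L) W) ∈ H) ↔ -((c : K ≃ₐ[L] K) y) = y := by
        change (c : K ≃ₐ[L] K) (σ y) = y ↔ _
        rw [hσ3, map_neg]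
      have h2 : c ∈ H ↔ (c : K ≃ₐ[L] K) y = y := Iff.rfl
      rw [h1, h2]
      rcases hpm c with h | h
      · rw [h]
        exact Or.inr ⟨rfl, fun h' => hyne h'.symm⟩
      · rw [h, neg_neg]
        exact Or.inl ⟨rfl, fun h' => hyne h'.symm⟩
    have hSH : (S : Subgroup (iner (L := L) W)) ≤ H := by
      intro s hs
      change (s : K ≃ₐ[L] K) y = y
      have hmem : (fun i => sx (s : K ≃ₐ[L] K) (β i)) ∈ T := ⟨s, hs, fun i => rfl⟩
      have h1 : f (fun i => sx (s : K ≃ₐ[L] K) (β i)) = 0 := hf hmem
      rw [hfe] at h1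
      rw [hact, h1]
      simp [sg]
    have h3 := Subgroup.index_dvd_of_le hSH
    rw [hHidx] at h3
    exact hodd h3
  have hex : ∀ j : Fin 4, ∃ s : iner (L := L) W, s ∈ (S : Subgroup (iner (L := L) W)) ∧
      ∀ i, sx (s : K ≃ₐ[L] K) (β i) = if i = j then 1 else 0 := by
    intro j
    have : (fun i => if i = j then (1 : ZMod 2) else 0) ∈ T := by
      rw [hT]
      exact Submodule.mem_top
    exact this
  choose σ hσS hσ using hex
  refine ⟨fun j => (σ j : K ≃ₐ[L] K), fun i j => ?_, fun i j => ?_⟩
  · -- commutation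
    set g : K ≃ₐ[L] K := (σ i : K ≃ₐ[L] K) * (σ j : K ≃ₐ[L] K) *
      ((σ j : K ≃ₐ[L] K) * (σ i : K ≃ₐ[L] K))⁻¹ with hg
    have hwild : Wild W g := wild_comm (σ i).2 (σ j).2
    have hgS : (σ i * σ j * (σ j * σ i)⁻¹) ∈ (S : Subgroup (iner (L := L) W)) :=
      mul_mem (mul_mem (hσS i) (hσS j)) (inv_mem (mul_mem (hσS j) (hσS i)))
    have hpk : ∃ k, orderOf g = 2 ^ k := by
      have h1 := (IsPGroup.iff_orderOf.1 S.isPGroup') ⟨_, hgS⟩
      obtain ⟨k, hk⟩ := h1
      refine ⟨k, ?_⟩
      rw [← hk, Subgroup.orderOf_mk]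
      have : g = ((σ i * σ j * (σ j * σ i)⁻¹ : iner (L := L) W) : K ≃ₐ[L] K) := by
        rw [hg]
        simp
      rw [this, Subgroup.orderOf_coe]
    obtain ⟨k, hk⟩ := hpk
    have hg1 : g = 1 := by
      rcases Nat.eq_zero_or_pos k with h0 | h0
      · subst h0
        rw [pow_zero] at hk
        exact orderOf_eq_one_iff.1 hk
      · exfalso
        have h1 : g ^ (2 ^ (k - 1)) = 1 := by
          refine wild_order_two hw2 (wild_pow hwild _) ?_
          rw [← pow_add, ← two_mul, ← pow_succ', Nat.sub_add_cancel h0, ← hk]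
          exact pow_orderOf_eq_one g
        have h2 := orderOf_dvd_of_pow_eq_one h1
        rw [hk] at h2
        have h3 := Nat.le_of_dvd (by positivity) h2
        have h4 : 2 ^ (k - 1) < 2 ^ k := Nat.pow_lt_pow_right (by norm_num) (by omega)
        omega
    rw [hg] at hg1
    exact mul_inv_eq_one.1 hg1
  · change (σ j : K ≃ₐ[L] K) (β i) = _
    rw [act_sq (hβ i), hσ j i]
    by_cases h : i = j
    · rw [if_pos h, if_pos h]
      simp [sg]
    · rw [if_neg h, if_neg h]
      simp [sg]

end Helper64UH
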